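import Pool.Agent.U735.SO.Cls
import Pool.Agent.U735.IL.Van

/-!
# Project SO, package KAPPA: the Casimir operators
-/

set_option autoImplicit false
set_option linter.unusedSectionVars false
set_option linter.unusedSimpArgs false
set_option backward.isDefEq.respectTransparency false
set_option backward.defeqAttrib.useBackward true

open CategoryTheory Limits MonoidalCategory Pretriangulated Triangulated TensorProduct

namespace Pool.Agent.U15.SO

open Pool.Agent.Y116.MT Pool.Agent.V1178.MT Pool.Agent.U735.IL Pool.Agent.U735.SO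

universe v u v₀ u₀ w s

open Functor.LaxMonoidal

section

variable {C : Type u} [Category.{v} C] [Preadditive C] [HasZeroObject C] [HasShift C ℤ]
  [∀ n : ℤ, (shiftFunctor C n).Additive] [Pretriangulated C] [MonoidalCategory C]
  [SymmetricCategory C] [TensorTriangulated C] {E : Type w} [Field E]
  {Γ : Type s} [Group Γ] {R : Realisation C E} {a : GalAct Γ R} [RightRigidCategory C]

/-- The composition `(M ⊗ Sᘁ) ⊗ (S ⊗ Sᘁ) ⟶ M ⊗ Sᘁ`. -/
noncomputable def cm (M S : C) : (M ⊗ (Sᘁ : C)) ⊗ (S ⊗ (Sᘁ : C)) ⟶ M ⊗ (Sᘁ : C) :=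
  (α_ M Sᘁ (S ⊗ Sᘁ)).hom ≫ M ◁ (α_ Sᘁ S Sᘁ).inv ≫ M ◁ (ε_ S Sᘁ ▷ Sᘁ) ≫ M ◁ (λ_ _).hom

lemma cm_ex (M S : C) (m : R.H.obj M) (x : R.H.obj (Sᘁ : C)) (s : R.H.obj S)
    (x' : R.H.obj (Sᘁ : C)) :
    hm R (cm M S) (ex R (ex R m x) (ex R s x')) = pr R x s • ex R m x' := by
  simp only [cm, hm_comp, hm_assoc, hm_right, hm_assoc_inv, hm_left, hm_lam', ex_smul_right]
  rfl

/-- Composition of the linear maps given by classes. -/
lemma con_cm {M S : C} (hM : Nn R M) (hS : Nn R S) (hS' : Nn R (Sᘁ : C))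
    (z : R.H.obj (M ⊗ (Sᘁ : C))) (y : R.H.obj (S ⊗ (Sᘁ : C))) :
    con R M S (hm R (cm M S) (ex R z y)) = con R M S z ∘ₗ con R S S y := by
  obtain ⟨n, m, x, rfl⟩ := exists_sum hM hS' z
  obtain ⟨n', t, x', rfl⟩ := exists_sum hS hS' y
  rw [← conB_apply, ← conB_apply, ← conB_apply]
  simp only [ex_sum_left, ex_sum_right, map_sum, cm_ex, map_smul]
  ext v
  simp only [LinearMap.sum_apply, LinearMap.comp_apply, LinearMap.smul_apply, conB_apply, con_ex,
    map_sum, map_smul]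
  refine Finset.sum_congr rfl fun i _ => ?_
  rw [Finset.smul_sum]
  refine Finset.sum_congr rfl fun j _ => ?_
  rw [smul_comm]

/-- The trace as a morphism. -/
lemma tau {S : C} (hS : Nn R S) (hS' : Nn R (Sᘁ : C)) (z : R.H.obj (S ⊗ (Sᘁ : C))) :
    sc R (hm R (ε_ S Sᘁ) (hm R (β_ S Sᘁ).hom z)) = LinearMap.trace E _ (con R S S z) := by
  have h : (sc R ∘ₗ hm R (ε_ S Sᘁ)) ∘ₗ hm R (β_ S (Sᘁ : C)).hom =
      LinearMap.trace E (R.H.obj S) ∘ₗ conB R S S := by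
    refine ext_ex hS hS' fun t x => ?_
    rw [LinearMap.comp_apply, LinearMap.comp_apply, LinearMap.comp_apply, hm_braid, conB_apply]
    have h1 : con R S S (ex R t x) = (prB R S x).smulRight t := by
      ext v
      rw [con_ex, LinearMap.smulRight_apply, prB_apply]
    rw [h1, LinearMap.trace_smulRight, prB_apply]
    rfl
  exact LinearMap.congr_fun h z

/-- The trace form. -/
noncomputable def bf (S : C) : (S ⊗ (Sᘁ : C)) ⊗ (S ⊗ (Sᘁ : C)) ⟶ 𝟙_ C :=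
  cm S S ≫ (β_ S Sᘁ).hom ≫ ε_ S Sᘁ

lemma bf_tr {S : C} (hS : Nn R S) (hS' : Nn R (Sᘁ : C)) (y y' : R.H.obj (S ⊗ (Sᘁ : C))) :
    sc R (hm R (bf S) (ex R y y')) =
      LinearMap.trace E _ (con R S S y ∘ₗ con R S S y') := by
  rw [bf, hm_comp, hm_comp, tau hS hS', con_cm hS hS hS']

lemma perf_left (hD : DualityCompatible R) {S : C} (hS : Nn R S) (hS0 : Np R S)
    (y : R.H.obj (S ⊗ (Sᘁ : C)))
    (h : ∀ y' : R.H.obj (S ⊗ (Sᘁ : C)), sc R (hm R (bf S) (ex R y y')) = 0) : y = 0 := by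
  refine con_inj hD hS hS0 y ?_
  ext v
  rw [LinearMap.zero_apply, ← Module.forall_dual_apply_eq_zero_iff E]
  intro φ
  obtain ⟨z, hz⟩ := con_surj hD (M := S) (φ.smulRight v)
  have h1 := h z
  rw [bf_tr hS (nn_dual hD hS0), hz] at h1
  have h2 : con R S S y ∘ₗ φ.smulRight v = φ.smulRight (con R S S y v) := by
    ext x
    simp
  rw [h2, LinearMap.trace_smulRight] at h1
  exact h1

lemma bf_symm {S : C} (hS : Nn R S) (hS' : Nn R (Sᘁ : C)) (y y' : R.H.obj (S ⊗ (Sᘁ : C))) :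
    sc R (hm R (bf S) (ex R y y')) = sc R (hm R (bf S) (ex R y' y)) := by
  rw [bf_tr hS hS', bf_tr hS hS', LinearMap.trace_comp_comm']

/-- The trace form as a bilinear form. -/
noncomputable def bB (R : Realisation C E) (S : C) :
    R.H.obj (S ⊗ (Sᘁ : C)) →ₗ[E] R.H.obj (S ⊗ (Sᘁ : C)) →ₗ[E] E :=
  LinearMap.mk₂ E (fun y y' => sc R (hm R (bf S) (ex R y y')))
    (fun x y z => by simp only [ex_add_left, map_add])
    (fun c x y => by simp only [ex_smul_left, map_smul])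
    (fun x y z => by simp only [ex_add_right, map_add])
    (fun c x y => by simp only [ex_smul_right, map_smul])

lemma bB_apply (S : C) (y y' : R.H.obj (S ⊗ (Sᘁ : C))) :
    bB R S y y' = sc R (hm R (bf S) (ex R y y')) := rfl

lemma bB_ap (S : C) (g : Γ) (y y' : R.H.obj (S ⊗ (Sᘁ : C))) :
    bB R S (a.ap g _ y) (a.ap g _ y') = bB R S y y' := by
  rw [bB_apply, bB_apply, ← ap_ex, ← ap_hm, ap_one]

/-- The trace form on the invariants. -/
lemma perf_inv (hPerf : S_PERF.{s, w}) (hD : DualityCompatible R) {S : C} (hS : Nn R S)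
    (hS0 : Np R S) (hss : a.Semisimple (S ⊗ (Sᘁ : C))) :
    (∀ z, Ivt a (S ⊗ (Sᘁ : C)) z →
      (∀ z', Ivt a _ z' → hm R (bf S) (ex R z z') = 0) → z = 0) ∧
    (∀ z', Ivt a (S ⊗ (Sᘁ : C)) z' →
      (∀ z, Ivt a _ z → hm R (bf S) (ex R z z') = 0) → z' = 0) := by
  have hS' : Nn R (Sᘁ : C) := nn_dual hD hS0
  obtain ⟨h1, h2⟩ := hPerf E Γ (R.H.obj (S ⊗ (Sᘁ : C))) (R.H.obj (S ⊗ (Sᘁ : C)))
    (fun g => a.ap g _) (fun g => a.ap g _) (bB R S) (fun g => ap_surjective g _)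
    (fun U hU => hss U hU) (fun g x y => bB_ap S g x y)
    (fun x hx => perf_left hD hS hS0 x hx)
    (fun y hy => perf_left hD hS hS0 y fun x => by
      rw [bf_symm hS hS']
      exact hy x)
  refine ⟨fun z hz h => h1 z hz fun y hy => ?_, fun z' hz h => h2 z' hz fun x hx => ?_⟩
  · rw [bB_apply, h y hy, map_zero]
  · rw [bB_apply, h x hx, map_zero]

end

section

variable {C₀ : Type u₀} [Category.{v₀} C₀] [Preadditive C₀] [HasZeroObject C₀] [HasShift C₀ ℤ]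
  [∀ n : ℤ, (shiftFunctor C₀ n).Additive] [Pretriangulated C₀] [IsTriangulated C₀]
  [MonoidalCategory C₀] [SymmetricCategory C₀] [TensorTriangulated C₀] [MonoidalPreadditive C₀]
  [RightRigidCategory C₀]
  {C : Type u} [Category.{v} C] [Preadditive C] [HasZeroObject C] [HasShift C ℤ]
  [∀ n : ℤ, (shiftFunctor C n).Additive] [Pretriangulated C] [MonoidalCategory C]
  [SymmetricCategory C] [TensorTriangulated C] [MonoidalPreadditive C] [RightRigidCategory C]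
  {E : Type w} [Field E]
  {Γ : Type s} [Group Γ] {R₀ : Realisation C₀ E} {R : Realisation C E} {a : GalAct Γ R}
  {t₀ : TStructure C₀} {G : C₀ ⥤ C} [G.Monoidal] [G.Additive] [G.CommShift ℤ]

lemma ap_triv (F : FunctionField G R₀ R a) (g : Γ) (A : C₀) (x : R.H.obj (G.obj A)) :
    a.ap g (G.obj A) x = x := by
  have h := LinearMap.congr_fun (congrArg ModuleCat.Hom.hom (F.trivial g A)) x
  exact h

theorem t_KAPPA (hG : Good t₀ R₀) (F : FunctionField G R₀ R a) (hD : DualityCompatible R)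
    (hI : S_INV t₀ G a) (hDual : S_DUAL t₀ G a) (hPerf : S_PERF.{s, w}) : S_KAPPA t₀ G a := by
  intro M S hM hSd hss
  have hS : Nn R S := Nn.of_deg hSd
  have hS0 : Np R S := Np.of_deg hSd
  have hS' : Nn R (Sᘁ : C) := nn_dual hD hS0
  have hY : Nn R (S ⊗ (Sᘁ : C)) := fun i hi => tensor_vanish_neg hS hS' hi
  have hZ : Nn R (M ⊗ (Sᘁ : C)) := fun i hi => tensor_vanish_neg hM hS' hi
  obtain ⟨hp1, hp2⟩ := perf_inv hPerf hD hS hS0 hss
  obtain ⟨D, d, hDh, hdi, hds, -⟩ := hI _ hY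
  obtain ⟨n, p, q, k, hk, hpq, -⟩ := hDual _ _ (bf S) D D d d hDh hDh hdi hdi hds hds hp1 hp2
  obtain ⟨E₀, c, hEh, hci, hcs, huniv⟩ := hI _ hZ
  obtain ⟨r0, hr0⟩ := huniv (E₀ ⊗ D) (inv (μ G E₀ D) ≫ (c ⊗ₘ d) ≫ cm M S) (hG.ht.hrt hEh hDh).1
  let rho : G.obj E₀ ⊗ G.obj D ⟶ G.obj E₀ := μ G E₀ D ≫ G.map r0
  have hrho : rho ≫ c = (c ⊗ₘ d) ≫ cm M S := by
    change (μ G E₀ D ≫ G.map r0) ≫ c = _
    rw [Category.assoc, ← hr0, IsIso.hom_inv_id_assoc]
  let act : G.obj D ⊗ S ⟶ S := (d ▷ S) ≫ (α_ S Sᘁ S).hom ≫ S ◁ ε_ S Sᘁ ≫ (ρ_ S).hom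
  have hact : ∀ x v, hm R act (ex R x v) = con R S S (hm R d x) v := by
    intro x v
    change hm R ((d ▷ S) ≫ (α_ S Sᘁ S).hom ≫ S ◁ ε_ S Sᘁ ≫ (ρ_ S).hom) (ex R x v) = _
    rw [hm_comp, hm_left]
    rfl
  let r : Fin n → R.H.obj (G.obj E₀) →ₗ[E] R.H.obj (G.obj E₀) := fun i =>
    { toFun := fun e => hm R rho (ex R e (p i))
      map_add' := fun x y => by rw [ex_add_left, map_add]
      map_smul' := fun t x => by rw [ex_smul_left, map_smul]; rfl }
  have hr : ∀ i e, r i e = hm R rho (ex R e (p i)) := fun _ _ => rfl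
  have hinv : ∀ x : R.H.obj (G.obj D), Ivt a _ (hm R d x) := by
    intro x g
    rw [ap_hm, ap_triv F]
  refine ⟨E₀, c, n, fun i => hm R d (p i), fun i => hm R d (q i),
    (G.obj E₀ ◁ (λ_ S).inv) ≫ (G.obj E₀ ◁ (k ▷ S)) ≫ (G.obj E₀ ◁ (α_ _ _ _).hom) ≫
      (α_ _ _ _).inv ≫ (rho ⊗ₘ act),
    (λ_ S).inv ≫ (k ▷ S) ≫ (α_ _ _ _).hom ≫ (G.obj D ◁ act) ≫ act, r, hEh, hci, hcs,
    fun i => hinv _, fun i => hinv _, ?_, ?_, ?_, ?_⟩
  · intro f hf
    obtain ⟨z, rfl⟩ := con_surj hD (M := S) f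
    obtain ⟨x, rfl⟩ := hds z (ivt_of_eqv hD hS hS0 hf)
    have h1 : ∀ i, LinearMap.trace E _ (con R S S (hm R d (q i)) ∘ₗ con R S S (hm R d x)) •
        con R S S (hm R d (p i)) = conB R S S (hm R d
          (sc R (hm R (bf S) (ex R (hm R d (q i)) (hm R d x))) • p i)) := by
      intro i
      rw [bf_tr hS hS', map_smul, map_smul, conB_apply]
    rw [Finset.sum_congr rfl fun i _ => h1 i, ← map_sum, ← map_sum, hpq x, conB_apply]
  · intro i e
    rw [hr, ← hm_comp, hrho, hm_comp, hm_tensor, con_cm hM hS hS']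
  · intro e v
    simp only [hm_comp, hm_right, hm_left, hm_lam_inv, hk, ex_sum_left, ex_sum_right, map_sum,
      hm_assoc, hm_assoc_inv, hm_tensor, hact, hr]
  · intro v
    simp only [hm_comp, hm_right, hm_left, hm_lam_inv, hk, ex_sum_left, ex_sum_right, map_sum,
      hm_assoc, hm_assoc_inv, hm_tensor, hact, hr]

end

end Pool.Agent.U15.SO
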